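import Pool.Agent.Y425.CW.Cub
import Pool.Agent.Y425.BF6.E0
import Pool.Agent.Y425.BF6.E1

set_option autoImplicit false

/-! All types of the table pass the checker. -/

namespace Pool.Agent.Y425.BF6

open Pool.Agent.TH222.RG (BT Ent)
open Pool.Agent.Y425.CW (chkFT)

theorem cons_ok {t : BT} {l : List BT} {es : List Ent} (h : chkFT S 6 tbl t es = true)
    (hl : ∀ t ∈ l, ∃ es, chkFT S 6 tbl t es = true) : ∀ t' ∈ t :: l, ∃ es, chkFT S 6 tbl t' es = true := by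
  intro t' ht'
  rcases List.mem_cons.1 ht' with h' | h'
  · subst h'; exact ⟨es, h⟩
  · exact hl t' h'

theorem nil_ok : ∀ t ∈ ([] : List BT), ∃ es, chkFT S 6 tbl t es = true :=
  fun _ ht => absurd ht List.not_mem_nil

theorem okB0 : ∀ t ∈ B0, ∃ es, chkFT S 6 tbl t es = true :=
  (cons_ok ok0 (cons_ok ok1 (cons_ok ok2 (cons_ok ok3 (cons_ok ok4 (cons_ok ok5 
  (cons_ok ok6 (cons_ok ok7 (cons_ok ok8 (cons_ok ok9 (cons_ok ok10 (cons_ok ok11 
  (cons_ok ok12 (cons_ok ok13 (cons_ok ok14 (cons_ok ok15 nil_ok))))))))))))))))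

theorem okB1 : ∀ t ∈ B1, ∃ es, chkFT S 6 tbl t es = true :=
  (cons_ok ok16 (cons_ok ok17 (cons_ok ok18 (cons_ok ok19 (cons_ok ok20 (cons_ok ok21 
  (cons_ok ok22 (cons_ok ok23 (cons_ok ok24 (cons_ok ok25 (cons_ok ok26 (cons_ok ok27 
  (cons_ok ok28 (cons_ok ok29 (cons_ok ok30 (cons_ok ok31 nil_ok))))))))))))))))

theorem okB2 : ∀ t ∈ B2, ∃ es, chkFT S 6 tbl t es = true :=
  (cons_ok ok32 (cons_ok ok33 (cons_ok ok34 (cons_ok ok35 (cons_ok ok36 (cons_ok ok37 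
  (cons_ok ok38 (cons_ok ok39 (cons_ok ok40 (cons_ok ok41 (cons_ok ok42 (cons_ok ok43 
  (cons_ok ok44 (cons_ok ok45 (cons_ok ok46 (cons_ok ok47 nil_ok))))))))))))))))

theorem okB3 : ∀ t ∈ B3, ∃ es, chkFT S 6 tbl t es = true :=
  (cons_ok ok48 (cons_ok ok49 (cons_ok ok50 (cons_ok ok51 (cons_ok ok52 (cons_ok ok53 
  (cons_ok ok54 (cons_ok ok55 (cons_ok ok56 (cons_ok ok57 (cons_ok ok58 (cons_ok ok59 
  (cons_ok ok60 (cons_ok ok61 (cons_ok ok62 (cons_ok ok63 nil_ok))))))))))))))))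

theorem okB4 : ∀ t ∈ B4, ∃ es, chkFT S 6 tbl t es = true :=
  (cons_ok ok64 (cons_ok ok65 (cons_ok ok66 (cons_ok ok67 (cons_ok ok68 (cons_ok ok69 
  (cons_ok ok70 (cons_ok ok71 (cons_ok ok72 (cons_ok ok73 (cons_ok ok74 (cons_ok ok75 
  (cons_ok ok76 (cons_ok ok77 nil_ok))))))))))))))

theorem okBB : ∀ B ∈ BB, ∀ t ∈ B, ∃ es, chkFT S 6 tbl t es = true := by
  intro B hB
  simp only [BB, List.mem_cons, List.not_mem_nil, or_false] at hB
  rcases hB with h | h | h | h | h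
  · subst h; exact okB0
  · subst h; exact okB1
  · subst h; exact okB2
  · subst h; exact okB3
  · subst h; exact okB4

theorem ok_all (i : ℕ) : ∃ es, chkFT S 6 tbl (tbl i) es = true := by
  rcases Pool.Agent.Y425.CW.tbl_cases BB T0 i with ⟨B, hB, h⟩ | h
  · exact okBB B hB _ h
  · have h' : tbl i = T0 := h
    rw [h']
    exact ⟨E0, ok0⟩

theorem pos_all_aux : (BB.all fun B => B.all fun t => Nat.blt 0 t.n) = true := by decide +kernel

theorem pos_all (i : ℕ) : 0 < (tbl i).n := by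
  rcases Pool.Agent.Y425.CW.tbl_cases BB T0 i with ⟨B, hB, h⟩ | h
  · have := List.all_eq_true.1 (List.all_eq_true.1 pos_all_aux B hB) _ h
    exact Nat.le_of_ble_eq_true this
  · have h' : tbl i = T0 := h
    rw [h']; exact Nat.one_pos

end Pool.Agent.Y425.BF6
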