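import Pool.Agent.Y425.BF6.Cor

set_option autoImplicit false
set_option linter.unusedSectionVars false

/-!
Three perfect matchings with empty intersection in a cubic graph: the edges outside two of them form
a bipartite graph.
-/

namespace Pool.Agent.Y425.BF6.Col2

open Finset Pool.Agent.Y425.BF6.Cor

variable {V E : Type} [Fintype V] [DecidableEq V] [Fintype E] [DecidableEq E]

/-- the number of ends of the edge e at the vertex v -/
def wt (s t : E → V) (v : V) (e : E) : ℕ := (if s e = v then 1 else 0) + (if t e = v then 1 else 0)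

theorem sum_wt (s t : E → V) (e : E) : ∑ v, wt s t v e = 2 := by
  unfold wt
  rw [sum_add_distrib, sum_ite_eq, sum_ite_eq, if_pos (mem_univ _), if_pos (mem_univ _)]

theorem two_col {s t : E → V} {M₀ M₁ M₂ : Finset E} (h3 : ∀ v, ∑ e, wt s t v e = 3)
    (m0 : ∀ v, ∑ e ∈ M₀, wt s t v e = 1) (m1 : ∀ v, ∑ e ∈ M₁, wt s t v e = 1)
    (m2 : ∀ v, ∑ e ∈ M₂, wt s t v e = 1) (hcov : ∀ e, ¬ (e ∈ M₀ ∧ e ∈ M₁ ∧ e ∈ M₂)) :
    ∃ c : V → ZMod 2, ∀ e, e ∉ M₀ ∪ M₁ → c (s e) + c (t e) = 1 := by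
  by_contra hcon
  let L : (V → ZMod 2) →ₗ[ZMod 2] (E → ZMod 2) :=
    { toFun := fun c e => if e ∈ M₀ ∪ M₁ then 0 else c (s e) + c (t e)
      map_add' := by
        intro c d
        funext e
        simp only [Pi.add_apply]
        split_ifs
        · rw [add_zero]
        · ring
      map_smul' := by
        intro r c
        funext e
        simp only [Pi.smul_apply, smul_eq_mul, RingHom.id_apply]
        split_ifs
        · rw [mul_zero]
        · ring }
  let b : E → ZMod 2 := fun e => if e ∈ M₀ ∪ M₁ then 0 else 1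
  have hb : b ∉ LinearMap.range L := by
    rintro ⟨c, hc⟩
    apply hcon
    refine ⟨c, fun e he => ?_⟩
    have h1 : (if e ∈ M₀ ∪ M₁ then 0 else c (s e) + c (t e)) =
      (if e ∈ M₀ ∪ M₁ then (0 : ZMod 2) else 1) := congrFun hc e
    rw [if_neg he, if_neg he] at h1
    exact h1
  obtain ⟨φ, hφ1, hφ2⟩ := Submodule.exists_le_ker_of_notMem hb
  set y : E → ZMod 2 := fun e => φ (fun j => if e = j then 1 else 0) with hy
  have hφ : ∀ x : E → ZMod 2, φ x = ∑ e, x e * y e := by
    intro x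
    rw [LinearMap.pi_apply_eq_sum_univ φ x]
    rfl
  have h01 : ∀ z : ZMod 2, z = if z = 1 then 1 else 0 := by decide
  set D : Finset E := univ.filter fun e => e ∉ M₀ ∪ M₁ ∧ y e = 1 with hD
  -- the degrees of D are even
  have hev : ∀ v, Even (∑ e ∈ D, wt s t v e) := by
    intro v
    rw [← ZMod.natCast_eq_zero_iff_even]
    have h1 : φ (L (fun u => if u = v then 1 else 0)) = 0 := hφ2 ⟨_, rfl⟩
    rw [hφ] at h1
    rw [← h1, Nat.cast_sum, hD, sum_filter]
    refine sum_congr rfl fun e _ => ?_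
    have h2 : L (fun u => if u = v then 1 else 0) e = if e ∈ M₀ ∪ M₁ then 0 else
      ((if s e = v then 1 else 0) + (if t e = v then 1 else 0) : ZMod 2) := rfl
    rw [h2]
    by_cases he : e ∈ M₀ ∪ M₁
    · rw [if_neg (fun h => h.1 he), if_pos he, zero_mul]
    · rw [if_neg he]
      by_cases h4 : y e = 1
      · rw [if_pos ⟨he, h4⟩, h4, mul_one]
        unfold wt
        push_cast
        rfl
      · rw [if_neg (fun h => h4 h.2)]
        have h5 : y e = 0 := by rw [h01 (y e), if_neg h4]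
        rw [h5, mul_zero]
  -- half of the edges of D are in the third matching
  have hhalf : ∀ v, ∑ e ∈ D, wt s t v e = 2 * ∑ e ∈ D ∩ M₂, wt s t v e := by
    intro v
    have h1 : ∑ e ∈ D ∩ M₂, wt s t v e + ∑ e ∈ D \ M₂, wt s t v e = ∑ e ∈ D, wt s t v e := by
      rw [← sum_union (by
        rw [disjoint_left]
        intro e h1 h2
        exact (mem_sdiff.1 h2).2 (mem_inter.1 h1).2)]
      congr 1
      ext e
      rw [mem_union, mem_inter, mem_sdiff]
      tauto
    have h2 : ∑ e ∈ D ∩ M₂, wt s t v e ≤ 1 := by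
      rw [← m2 v]
      exact sum_le_sum_of_subset inter_subset_right
    have h4 : ∑ e ∈ D \ M₂, wt s t v e ≤ 1 := by
      have h5 : ∑ e ∈ D \ M₂, wt s t v e ≤ ∑ e ∈ univ \ (M₀ ∪ M₁ ∪ M₂), wt s t v e := by
        apply sum_le_sum_of_subset
        intro e he
        rw [mem_sdiff, hD, mem_filter] at he
        rw [mem_sdiff, mem_union]
        exact ⟨mem_univ _, fun h => h.elim he.1.2.1 he.2⟩
      have h6 : ∑ e ∈ univ \ (M₀ ∪ M₁ ∪ M₂), wt s t v e + ∑ e ∈ M₀ ∪ M₁ ∪ M₂, wt s t v e = 3 := by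
        rw [← h3 v]
        exact sum_sdiff (subset_univ _)
      have h7 : 3 ≤ 2 * ∑ e ∈ M₀ ∪ M₁ ∪ M₂, wt s t v e := by
        have h8 : ∀ M : Finset E, M ⊆ M₀ ∪ M₁ ∪ M₂ → ∑ e ∈ M, wt s t v e =
            ∑ e ∈ M₀ ∪ M₁ ∪ M₂, if e ∈ M then wt s t v e else 0 := by
          intro M hM
          rw [sum_ite_mem, inter_eq_right.2 hM]
        have h9 : (3 : ℕ) = ∑ e ∈ M₀, wt s t v e + ∑ e ∈ M₁, wt s t v e +
            ∑ e ∈ M₂, wt s t v e := by rw [m0, m1, m2]
        rw [h9, h8 M₀ (fun e h => mem_union_left _ (mem_union_left _ h)),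
          h8 M₁ (fun e h => mem_union_left _ (mem_union_right _ h)),
          h8 M₂ (fun e h => mem_union_right _ h), ← sum_add_distrib, ← sum_add_distrib, mul_sum]
        apply sum_le_sum
        intro e _
        have h10 := hcov e
        by_cases a0 : e ∈ M₀ <;> by_cases a1 : e ∈ M₁ <;> by_cases a2 : e ∈ M₂
        · exact absurd ⟨a0, a1, a2⟩ h10
        all_goals
          simp only [if_pos, if_neg, a0, a1, a2, if_true, if_false]
          omega
      omega
    obtain ⟨k, hk⟩ := hev v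
    omega
  -- the number of edges of D is even
  have hcard : D.card = 2 * (D ∩ M₂).card := by
    have h1 : ∀ X : Finset E, ∑ v, ∑ e ∈ X, wt s t v e = 2 * X.card := by
      intro X
      rw [sum_comm, sum_congr rfl fun e _ => sum_wt s t e, sum_const, smul_eq_mul, mul_comm]
    have h2 := h1 D
    rw [sum_congr rfl fun v _ => hhalf v, ← mul_sum, h1 (D ∩ M₂)] at h2
    omega
  apply hφ1
  rw [hφ]
  have h1 : ∑ e, b e * y e = ((D.card : ℕ) : ZMod 2) := by
    rw [card_eq_sum_ones, Nat.cast_sum, hD, sum_filter]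
    refine sum_congr rfl fun e _ => ?_
    have h2 : b e = if e ∈ M₀ ∪ M₁ then 0 else 1 := rfl
    rw [h2]
    by_cases he : e ∈ M₀ ∪ M₁
    · rw [if_pos he, zero_mul, if_neg (fun h => h.1 he)]
    · rw [if_neg he, one_mul]
      by_cases h4 : y e = 1
      · rw [if_pos ⟨he, h4⟩, h4, Nat.cast_one]
      · rw [if_neg (fun h => h4 h.2)]
        rw [h01 (y e), if_neg h4]
  rw [h1, hcard, Nat.cast_mul]
  have h2 : ((2 : ℕ) : ZMod 2) = 0 := rfl
  rw [h2, zero_mul]

/-- two perfect matchings and a proper colouring of the other edges with two colours -/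
theorem s4 {s t : E → V} (h : Six s t) (h3 : ∀ v, ∑ e, wt s t v e = 3) :
    ∃ M₁ M₂ : Finset E, (∀ v, ∑ e ∈ M₁, wt s t v e = 1) ∧ (∀ v, ∑ e ∈ M₂, wt s t v e = 1) ∧
      ∃ c : V → Bool, ∀ e, e ∉ M₁ ∪ M₂ → c (s e) ≠ c (t e) := by
  obtain ⟨C, hC, h4⟩ := h
  have h5 : ∀ i v, ∑ e ∈ (C i)ᶜ, wt s t v e = 1 := fun i v =>
    compl_one (h3 v) (factor hC h4 v (h3 v) i)
  obtain ⟨c, hc⟩ := two_col (M₀ := (C 0)ᶜ) (M₁ := (C 1)ᶜ) (M₂ := (C 2)ᶜ) h3 (h5 0) (h5 1) (h5 2)
    (by
      rintro e ⟨h6, h7, h8⟩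
      rw [mem_compl] at h6 h7 h8
      rcases three_cover h4 (i := 0) (j := 1) (k := 2) (by decide) (by decide) (by decide) e
        with h | h | h
      · exact h6 h
      · exact h7 h
      · exact h8 h)
  refine ⟨(C 0)ᶜ, (C 1)ᶜ, h5 0, h5 1, fun v => decide (c v = 1), fun e he => ?_⟩
  have h6 := hc e he
  have h7 : ∀ x y : ZMod 2, x + y = 1 → decide (x = 1) ≠ decide (y = 1) := by decide
  exact h7 _ _ h6

end Pool.Agent.Y425.BF6.Col2
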