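import Pool.Agent.Y425.BF6.Fin

set_option autoImplicit false
set_option linter.unusedSectionVars false

/-!
Consequences of covers of all edges four times by six even subgraphs (the lemmas are those of
Pool.Agent.TH455.TFA), for the bridgeless graphs of cutwidth at most six.
-/

open Finset

namespace Pool.Agent.Y425.BF6.Cor

/-- all degrees are even, where a loop counts twice -/
def Cyc {V E : Type} [DecidableEq V] (src dst : E → V) (C : Finset E) : Prop :=
  ∀ v, Even (∑ e ∈ C, ((if src e = v then 1 else 0) + (if dst e = v then 1 else 0)))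

/-- six cycles cover every edge exactly four times -/
def Six {V E : Type} [DecidableEq V] [DecidableEq E] (src dst : E → V) : Prop :=
  ∃ C : Fin 6 → Finset E, (∀ i, Cyc src dst (C i)) ∧
    ∀ e, (univ.filter (fun i => e ∈ C i)).card = 4

variable {V E : Type} [Fintype V] [DecidableEq V] [Fintype E] [DecidableEq E]

/-- any three of the six cycles cover all edges -/
theorem three_cover {C : Fin 6 → Finset E} (h : ∀ e, (univ.filter (fun i => e ∈ C i)).card = 4)
    {i j k : Fin 6} (hij : i ≠ j) (hik : i ≠ k) (hjk : j ≠ k) (e : E) :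
    e ∈ C i ∨ e ∈ C j ∨ e ∈ C k := by
  by_contra hcon
  push Not at hcon
  obtain ⟨h1, h2, h3⟩ := hcon
  have h4 : univ.filter (fun i => e ∈ C i) ⊆ (univ : Finset (Fin 6)) \ {i, j, k} := by
    intro x hx
    rw [mem_filter] at hx
    rw [mem_sdiff, mem_insert, mem_insert, mem_singleton]
    refine ⟨mem_univ _, ?_⟩
    rintro (rfl | rfl | rfl)
    · exact h1 hx.2
    · exact h2 hx.2
    · exact h3 hx.2
  have h5 := card_le_card h4
  rw [h, card_sdiff_of_subset (subset_univ _), card_univ, Fintype.card_fin,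
    card_insert_of_notMem (by simp [hij, hik]), card_pair hjk] at h5
  omega

/-- the total length -/
theorem total {C : Fin 6 → Finset E} (h : ∀ e, (univ.filter (fun i => e ∈ C i)).card = 4) :
    ∑ i, (C i).card = 4 * Fintype.card E := by
  have h1 : ∀ i, (C i).card = ∑ e, if e ∈ C i then 1 else 0 := by
    intro i
    rw [sum_ite_mem, univ_inter, sum_const, smul_eq_mul, mul_one]
  rw [sum_congr rfl fun i _ => h1 i, sum_comm]
  have h2 : ∀ e, (∑ i, if e ∈ C i then 1 else 0) = 4 := by
    intro e
    rw [← h e, card_filter]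
  rw [sum_congr rfl fun e _ => h2 e, sum_const, card_univ, smul_eq_mul, mul_comm]

/-- three of the six cycles have total length at least twice the number of edges -/
theorem two_m {src dst : E → V} (h : Six src dst) :
    ∃ C₁ C₂ C₃ : Finset E, Cyc src dst C₁ ∧ Cyc src dst C₂ ∧ Cyc src dst C₃ ∧
      C₁ ∪ C₂ ∪ C₃ = univ ∧ 2 * Fintype.card E ≤ C₁.card + C₂.card + C₃.card := by
  obtain ⟨C, hC, h4⟩ := h
  have ht := total h4
  rw [Fin.sum_univ_six] at ht
  have hu : ∀ i j k : Fin 6, i ≠ j → i ≠ k → j ≠ k → C i ∪ C j ∪ C k = univ := by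
    intro i j k hij hik hjk
    ext e
    simp only [mem_union, mem_univ, iff_true]
    rcases three_cover h4 hij hik hjk e with h | h | h
    · exact Or.inl (Or.inl h)
    · exact Or.inl (Or.inr h)
    · exact Or.inr h
  by_cases hc : 2 * Fintype.card E ≤ (C 0).card + (C 1).card + (C 2).card
  · exact ⟨C 0, C 1, C 2, hC _, hC _, hC _, hu 0 1 2 (by decide) (by decide) (by decide), hc⟩
  · refine ⟨C 3, C 4, C 5, hC _, hC _, hC _, hu 3 4 5 (by decide) (by decide) (by decide), ?_⟩
    omega

theorem six_two (s : Fin 6 → ℕ) (h : ∀ j, s j ≤ 2)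
    (hs : s 0 + s 1 + s 2 + s 3 + s 4 + s 5 = 12) (i : Fin 6) : s i = 2 := by
  have a0 := h 0
  have a1 := h 1
  have a2 := h 2
  have a3 := h 3
  have a4 := h 4
  have a5 := h 5
  match i with
  | 0 => omega
  | 1 => omega
  | 2 => omega
  | 3 => omega
  | 4 => omega
  | 5 => omega

/-- in a cubic graph the six cycles are 2-factors -/
theorem factor {src dst : E → V} {C : Fin 6 → Finset E} (hC : ∀ i, Cyc src dst (C i))
    (h4 : ∀ e, (univ.filter (fun i => e ∈ C i)).card = 4) (v : V)
    (h3 : ∑ e, ((if src e = v then 1 else 0) + (if dst e = v then 1 else 0)) = 3) (i : Fin 6) :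
    ∑ e ∈ C i, ((if src e = v then 1 else 0) + (if dst e = v then 1 else 0)) = 2 := by
  set d : E → ℕ := fun e => (if src e = v then 1 else 0) + (if dst e = v then 1 else 0) with hd
  have hle : ∀ j, ∑ e ∈ C j, d e ≤ 2 := by
    intro j
    have h1 : ∑ e ∈ C j, d e ≤ ∑ e, d e :=
      sum_le_sum_of_subset (subset_univ _)
    have h2 : ∑ e, d e = 3 := h3
    have h5 : Even (∑ e ∈ C j, d e) := hC j v
    rw [h2] at h1
    obtain ⟨k, hk⟩ := h5
    omega
  have hs : ∑ j, ∑ e ∈ C j, d e = 12 := by
    have h1 : ∀ j, ∑ e ∈ C j, d e = ∑ e, if e ∈ C j then d e else 0 := by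
      intro j
      rw [sum_ite_mem, univ_inter]
    rw [sum_congr rfl fun j _ => h1 j, sum_comm]
    have h2 : ∀ e, (∑ j, if e ∈ C j then d e else 0) = 4 * d e := by
      intro e
      rw [← sum_filter, sum_const, h4, smul_eq_mul]
    rw [sum_congr rfl fun e _ => h2 e, ← mul_sum]
    have h2 : ∑ e, d e = 3 := h3
    rw [h2]
    rfl
  rw [Fin.sum_univ_six] at hs
  exact six_two (fun j => ∑ e ∈ C j, d e) hle hs i

/-- covers of every edge exactly `4 q` times by `6 q` cycles -/
theorem mult {src dst : E → V} (h : Six src dst) (q : ℕ) :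
    ∃ C : Fin (6 * q) → Finset E, (∀ i, Cyc src dst (C i)) ∧
      ∀ e, (univ.filter (fun i => e ∈ C i)).card = 4 * q := by
  obtain ⟨C, hC, h4⟩ := h
  refine ⟨fun i => C (finProdFinEquiv.symm i).1, fun i => hC _, fun e => ?_⟩
  have h1 : (univ.filter (fun i : Fin (6 * q) => e ∈ C (finProdFinEquiv.symm i).1)).card =
      (univ.filter (fun p : Fin 6 × Fin q => e ∈ C p.1)).card := by
    refine card_bij (fun i _ => finProdFinEquiv.symm i) ?_ ?_ ?_
    · intro i hi
      simpa using hi
    · intro i _ j _ hij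
      exact finProdFinEquiv.symm.injective hij
    · intro p hp
      refine ⟨finProdFinEquiv p, ?_, Equiv.symm_apply_apply _ _⟩
      rw [mem_filter] at hp ⊢
      refine ⟨mem_univ _, ?_⟩
      rw [Equiv.symm_apply_apply]
      exact hp.2
  have h2 : univ.filter (fun p : Fin 6 × Fin q => e ∈ C p.1) =
      (univ.filter (fun i => e ∈ C i)) ×ˢ (univ : Finset (Fin q)) := by
    ext p
    simp
  rw [h1, h2, card_product, h4, card_univ, Fintype.card_fin]

/-- minimal nonempty cycles -/
def Circ (src dst : E → V) (C : Finset E) : Prop :=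
  C.Nonempty ∧ Cyc src dst C ∧ ∀ D ⊆ C, D.Nonempty → Cyc src dst D → D = C

theorem cyc_sdiff {src dst : E → V} {C D : Finset E} (h : C ⊆ D) (hC : Cyc src dst C)
    (hD : Cyc src dst D) : Cyc src dst (D \ C) := by
  intro v
  have h1 := sum_sdiff (f := fun e => ((if src e = v then 1 else 0) + (if dst e = v then 1 else 0)))
    h
  have h2 := hC v
  have h3 := hD v
  rw [← h1] at h3
  exact (Nat.even_add.mp h3).mpr h2

/-- a cycle is the disjoint union of circuits -/
theorem decomp {src dst : E → V} (n : ℕ) : ∀ D : Finset E, D.card = n → Cyc src dst D →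
    ∃ F : Multiset (Finset E), (∀ C ∈ F, Circ src dst C) ∧ (∀ e ∈ D, ∃ C ∈ F, e ∈ C) ∧
      (F.map Finset.card).sum = D.card := by
  classical
  induction n using Nat.strong_induction_on with
  | _ n ih =>
    intro D hn hD
    by_cases h0 : D.Nonempty
    · have hex : ((D.powerset).filter (fun C => C.Nonempty ∧ Cyc src dst C)).Nonempty :=
        ⟨D, mem_filter.mpr ⟨mem_powerset_self D, h0, hD⟩⟩
      obtain ⟨C, hC, hmin⟩ := exists_min_image _ (fun C : Finset E => C.card) hex
      rw [mem_filter, mem_powerset] at hC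
      obtain ⟨hCD, hne, hcyc⟩ := hC
      have hcirc : Circ src dst C := by
        refine ⟨hne, hcyc, fun B hB hBn hBc => ?_⟩
        have h1 := hmin B (mem_filter.mpr ⟨mem_powerset.mpr (hB.trans hCD), hBn, hBc⟩)
        exact eq_of_subset_of_card_le hB h1
      have hcard : (D \ C).card + C.card = D.card := card_sdiff_add_card_eq_card hCD
      have hpos : 0 < C.card := card_pos.mpr hne
      obtain ⟨F, f1, f2, f3⟩ := ih (D \ C).card (by omega) (D \ C) rfl (cyc_sdiff hCD hcyc hD)
      refine ⟨C ::ₘ F, ?_, ?_, ?_⟩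
      · intro B hB
        rcases Multiset.mem_cons.mp hB with h | h
        · rw [h]; exact hcirc
        · exact f1 B h
      · intro e he
        by_cases heC : e ∈ C
        · exact ⟨C, Multiset.mem_cons_self _ _, heC⟩
        · obtain ⟨B, hB, heB⟩ := f2 e (mem_sdiff.mpr ⟨he, heC⟩)
          exact ⟨B, Multiset.mem_cons_of_mem hB, heB⟩
      · rw [Multiset.map_cons, Multiset.sum_cons, f3]
        omega
    · rw [not_nonempty_iff_eq_empty] at h0
      subst h0
      exact ⟨0, by simp, by simp, by simp⟩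

/-- the complement of a 2-factor of a cubic graph is a perfect matching -/
theorem compl_one {src dst : E → V} {C : Finset E} {v : V}
    (h3 : ∑ e, ((if src e = v then 1 else 0) + (if dst e = v then 1 else 0)) = 3)
    (h2 : ∑ e ∈ C, ((if src e = v then 1 else 0) + (if dst e = v then 1 else 0)) = 2) :
    ∑ e ∈ Cᶜ, ((if src e = v then 1 else 0) + (if dst e = v then 1 else 0)) = 1 := by
  have h := sum_add_sum_compl C
    (fun e => ((if src e = v then 1 else 0) + (if dst e = v then 1 else 0)))
  rw [h2, h3] at h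
  omega

/-- a cycle has an even number of edges in every cut -/
theorem cut_even {src dst : E → V} {C : Finset E} (hC : Cyc src dst C) (X : Finset V) :
    Even (C.filter (fun e => ¬ (src e ∈ X ↔ dst e ∈ X))).card := by
  have h1 : Even (∑ v ∈ X, ∑ e ∈ C, ((if src e = v then 1 else 0) +
      (if dst e = v then 1 else 0))) := even_sum _ (fun v _ => hC v)
  rw [sum_comm] at h1
  have h2 : ∀ e, (∑ v ∈ X, ((if src e = v then 1 else 0) + (if dst e = v then 1 else 0))) =
      (if src e ∈ X then 1 else 0) + (if dst e ∈ X then 1 else 0) := by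
    intro e
    rw [sum_add_distrib, sum_ite_eq, sum_ite_eq]
  rw [sum_congr rfl fun e _ => h2 e] at h1
  rw [← ZMod.natCast_eq_zero_iff_even] at h1 ⊢
  refine Eq.trans ?_ h1
  rw [card_filter, Nat.cast_sum, Nat.cast_sum]
  refine sum_congr rfl fun e _ => ?_
  by_cases a : src e ∈ X <;> by_cases b : dst e ∈ X <;> simp [a, b]
  decide

/-- an odd cut is not contained in two of the three perfect matchings -/
theorem two_pm {src dst : E → V} (h : Six src dst)
    (h3 : ∀ v, ∑ e, ((if src e = v then 1 else 0) + (if dst e = v then 1 else 0)) = 3) :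
    ∃ M₁ M₂ : Finset E,
      (∀ v, ∑ e ∈ M₁, ((if src e = v then 1 else 0) + (if dst e = v then 1 else 0)) = 1) ∧
      (∀ v, ∑ e ∈ M₂, ((if src e = v then 1 else 0) + (if dst e = v then 1 else 0)) = 1) ∧
      ∀ X : Finset V, Odd (univ.filter (fun e => ¬ (src e ∈ X ↔ dst e ∈ X))).card →
        ¬ univ.filter (fun e => ¬ (src e ∈ X ↔ dst e ∈ X)) ⊆ M₁ ∩ M₂ := by
  obtain ⟨C, hC, h4⟩ := h
  refine ⟨(C 0)ᶜ, (C 1)ᶜ, fun v => compl_one (h3 v) (factor hC h4 v (h3 v) 0),
    fun v => compl_one (h3 v) (factor hC h4 v (h3 v) 1), fun X hX hsub => ?_⟩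
  have h5 := cut_even (hC 2) X
  have h6 : univ.filter (fun e => ¬ (src e ∈ X ↔ dst e ∈ X)) =
      (C 2).filter (fun e => ¬ (src e ∈ X ↔ dst e ∈ X)) := by
    apply subset_antisymm
    · intro e he
      have h7 := hsub he
      rw [mem_inter, mem_compl, mem_compl] at h7
      rw [mem_filter] at he ⊢
      refine ⟨?_, he.2⟩
      rcases three_cover h4 (i := 0) (j := 1) (k := 2) (by decide) (by decide) (by decide) e
        with h | h | h
      · exact absurd h h7.1
      · exact absurd h h7.2
      · exact h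
    · exact filter_subset_filter _ (subset_univ _)
  rw [h6] at hX
  exact (Nat.not_even_iff_odd.mpr hX) h5


/-- the number of ends is the sum over the edges -/
theorem deg_eq (s t : E → V) (C : Finset E) (v : V) :
    ∑ e ∈ C, ((if s e = v then 1 else 0) + (if t e = v then 1 else 0)) =
      (C.filter (fun e => s e = v)).card + (C.filter (fun e => t e = v)).card := by
  rw [sum_add_distrib, card_filter, card_filter]

/-- bridgeless graphs of cutwidth at most six -/
theorem six_cw (s t : E → V)
    (hbridge : ∀ Z : Finset V, (univ.filter fun e => ¬ (s e ∈ Z ↔ t e ∈ Z)).card ≠ 1)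
    (hwidth : ∃ f : V → ℕ, Function.Injective f ∧
      ∀ n, (univ.filter fun e => ¬ (f (s e) < n ↔ f (t e) < n)).card ≤ 6) : Six s t := by
  obtain ⟨C, hC, h4⟩ := Pool.Agent.Y425.BF6.final V E s t hbridge hwidth
  refine ⟨C, fun i v => ?_, h4⟩
  rw [deg_eq]
  exact hC i v

end Pool.Agent.Y425.BF6.Cor
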