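import Pool.Agent.Y425.BF6.Ok
import Pool.Agent.Y425.BF6.All
import Pool.Agent.Y425.CW.Gen

set_option autoImplicit false

/-!
Quadruple covers by six even subgraphs of the bridgeless graphs of cutwidth at most six.
-/

open Finset

namespace Pool.Agent.Y425.BF6

open Pool.Agent.Y425.CW

theorem ms_card : ∀ c < 15, ((univ : Finset (Fin 6)).filter
    fun i : Fin 6 => (ms c).testBit (i : ℕ) = true).card = 4 := by
  decide +kernel

theorem final (V E : Type) [Fintype V] [DecidableEq V] [Fintype E] [DecidableEq E] (s t : E → V)
    (hbridge : ∀ Z : Finset V, (univ.filter fun e => ¬ (s e ∈ Z ↔ t e ∈ Z)).card ≠ 1)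
    (hwidth : ∃ f : V → ℕ, Function.Injective f ∧
      ∀ n, (univ.filter fun e => ¬ (f (s e) < n ↔ f (t e) < n)).card ≤ 6) :
    ∃ C : Fin 6 → Finset E,
      (∀ i v, Even (((C i).filter (fun e => s e = v)).card +
        ((C i).filter (fun e => t e = v)).card)) ∧
      ∀ e, (univ.filter (fun i => e ∈ C i)).card = 4 := by
  classical
  obtain ⟨num, hinj, hnum⟩ := hwidth
  obtain ⟨f, hf1, hf2⟩ := general ok tbl ok_all pos_all rfl rfl rfl ex V E s t (by
      intro Z
      have h := hbridge (univ.filter fun x => x ∈ Z)
      intro h'
      apply h
      rw [← h']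
      congr 1
      ext e
      rw [mem_ct]
      simp) ⟨num, hinj, by
      intro n
      refine le_trans (le_of_eq ?_) (hnum n)
      congr 1
      ext e
      rw [mem_ct]
      simp⟩
  choose c hc using hf1
  refine ⟨fun i => univ.filter fun e => (ms (c e)).testBit i = true, ?_, ?_⟩
  · intro i v
    have h1 : ∑ e, ((if s e = v then f e else 0) - (if t e = v then f e else 0)) i = 0 := by
      have h0 := congrFun (hf2 v) i
      unfold nt at h0
      rw [Finset.sum_apply] at h0
      convert h0
      rfl
    have h2 : ∀ e, ((if s e = v then f e else 0) - (if t e = v then f e else 0)) i =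
        (if e ∈ (univ.filter fun e => (ms (c e)).testBit i = true).filter (fun e => s e = v)
          then (1 : ZMod 2) else 0) +
        (if e ∈ (univ.filter fun e => (ms (c e)).testBit i = true).filter (fun e => t e = v)
          then (1 : ZMod 2) else 0) := by
      intro e
      have h3 : f e i = if (ms (c e)).testBit i = true then 1 else 0 := by
        rw [← (hc e).2]; rfl
      rw [Pi.sub_apply]
      have h4 : ∀ x y : ZMod 2, x - y = x + y := by decide
      rw [h4]
      have h5 : ∀ q : E → V, (if q e = v then f e else 0) i =
          if e ∈ (univ.filter fun e => (ms (c e)).testBit i = true).filter (fun e => q e = v)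
            then (1 : ZMod 2) else 0 := by
        intro q
        simp only [mem_filter, mem_univ, true_and]
        by_cases hq : q e = v
        · rw [if_pos hq, h3]
          simp [hq]
        · rw [if_neg hq, if_neg (fun h => hq h.2)]
          rfl
      rw [← h5 s, ← h5 t]
    rw [sum_congr rfl (fun e _ => h2 e), sum_add_distrib, sum_ite_mem, sum_ite_mem, univ_inter,
      univ_inter, sum_const, sum_const, nsmul_eq_mul, nsmul_eq_mul, mul_one, mul_one] at h1
    have h6 : (((((univ.filter fun e => (ms (c e)).testBit i = true).filter
        (fun e => s e = v)).card + ((univ.filter fun e => (ms (c e)).testBit i = true).filter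
        (fun e => t e = v)).card : ℕ)) : ZMod 2) = 0 := by
      push_cast
      exact h1
    rw [ZMod.natCast_eq_zero_iff_even] at h6
    exact h6
  · intro e
    have h1 : c e < 15 := (Pool.Agent.TH222.RG.blt_iff _ _).1 (hc e).1
    rw [← ms_card (c e) h1]
    congr 1
    ext i
    simp

end Pool.Agent.Y425.BF6
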