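import Pool.Agent.Y425.BF6.Col
import Pool.Agent.Y425.CW.Stp

set_option autoImplicit false

namespace Pool.Agent.Y425.BF6

open Finset
open Pool.Agent.TH697.CW6 (allB allB_iff)
open Pool.Agent.TH222.RG (beq_iff blt_iff)
open Pool.Agent.Y425.CW

theorem rho_ok : (allB 720 fun g => allB 6 fun i => Nat.blt (rho g i) 6) = true := by
  decide +kernel

theorem pt_ok : (allB 720 fun g => allB 15 fun c => vc (pt g c) && allB 6 fun i =>
    !(bne (Nat.beq (Nat.land (Nat.shiftRight (ms (pt g c)) i) 1) 1)
      (Nat.beq (Nat.land (Nat.shiftRight (ms c) (rho g i)) 1) 1))) = true := by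
  decide +kernel

theorem tb1 (m i : ℕ) : Nat.beq (Nat.land (Nat.shiftRight m i) 1) 1 = m.testBit i :=
  Pool.Agent.TH697.CW6.tb_eq m i

theorem xr_testBit (k : ℕ) (f : ℕ → ℕ) (j : ℕ) :
    ∑ i ∈ range k, (if (f i).testBit j = true then (1 : ZMod 2) else 0) =
      if (xr k f).testBit j = true then 1 else 0 := by
  induction k with
  | zero => simp [xr]
  | succ k ih =>
    rw [sum_range_succ, ih]
    have h0 : xr (k + 1) f = f k ^^^ xr k f := rfl
    rw [h0, Nat.testBit_xor]
    cases (f k).testBit j <;> cases (xr k f).testBit j <;> decide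

theorem ok : S.Ok where
  neg c hc := ⟨c, hc, by
    funext i
    show val c i = - val c i
    unfold val
    split_ifs <;> decide⟩
  sym g hg := by
    have hg' : g < 720 := hg
    have h1 := pt_ok
    have h2 := rho_ok
    rw [allB_iff] at h1 h2
    have h3 := h1 g hg'
    have h4 := h2 g hg'
    rw [allB_iff] at h3 h4
    have h5 : ∀ i < 6, rho g i < 6 := fun i hi => (blt_iff _ _).1 (h4 i hi)
    refine ⟨⟨⟨fun x i => x ⟨rho g i, h5 i i.2⟩, rfl⟩, fun x y => rfl⟩, ?_⟩
    intro c hc
    have hc' : c < 15 := (blt_iff _ _).1 hc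
    have h6 := h3 c hc'
    rw [Bool.and_eq_true, allB_iff] at h6
    refine ⟨h6.1, ?_⟩
    funext i
    have h7 := h6.2 i i.2
    rw [tb1, tb1] at h7
    have h8 : (ms (pt g c)).testBit i = (ms c).testBit (rho g i) := by
      revert h7
      cases (ms (pt g c)).testBit i <;> cases (ms c).testBit (rho g i) <;> simp
    show val (pt g c) i = val c ⟨rho g i, h5 i i.2⟩
    unfold val
    rw [h8]
  sum k _ F _ h := by
    have h1 : xr k (fun i => ms (F i)) = 0 := (beq_iff _ _).1 h
    funext j
    rw [Finset.sum_apply]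
    show ∑ i ∈ range k, val (F i) j = 0
    unfold val
    rw [xr_testBit k (fun i => ms (F i)) j, h1, Nat.zero_testBit]
    rfl

theorem ex : ∃ c, S.vc c = true := ⟨0, rfl⟩

end Pool.Agent.Y425.BF6
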