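import Pool.Agent.Y425.BF6.Cor

set_option autoImplicit false
set_option linter.unusedSectionVars false

/-!
The 2-factors of a quadruple cover at two vertices of a cubic graph (the lemmas are those of
Pool.Agent.TH497.BF.Tw and of the starting file TreewidthFour on MP_b7f2ce_co).
-/

namespace Pool.Agent.Y425.BF6.Tf

open Finset

/-- the edges at the vertex `v` -/
def star {V E : Type} [DecidableEq V] [Fintype E] (src dst : E → V) (v : V) : Finset E :=
  univ.filter fun e => src e = v ∨ dst e = v

/-- a choice from the classes of one partition which meets all classes of the other -/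
theorem pick : ∀ w : Fin 3 → Bool → Fin 3,
    (∀ k, (univ.filter fun p : Fin 3 × Bool => w p.1 p.2 = k).card = 2) →
    ∃ c : Fin 3 → Bool, ∀ i j, w i (c i) = w j (c j) → i = j := by
  decide +kernel

/-- two partitions of six elements into pairs have a common transversal -/
theorem transversal {u w : Fin 6 → Fin 3} (hu : ∀ j, (univ.filter fun k => u k = j).card = 2)
    (hw : ∀ j, (univ.filter fun k => w k = j).card = 2) :
    ∃ σ : Fin 3 → Fin 6, (∀ i, u (σ i) = i) ∧ Function.Injective fun i => w (σ i) := by
  have h1 : ∀ j, ∃ a b : Fin 6, a ≠ b ∧ u a = j ∧ u b = j := by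
    intro j
    obtain ⟨a, b, hab, h⟩ := card_eq_two.mp (hu j)
    refine ⟨a, b, hab, ?_, ?_⟩
    · have : a ∈ univ.filter fun k => u k = j := by rw [h]; simp
      exact (mem_filter.mp this).2
    · have : b ∈ univ.filter fun k => u k = j := by rw [h]; simp
      exact (mem_filter.mp this).2
  choose α β h2 h3 h4 using h1
  have h5 : ∀ (j : Fin 3) (b : Bool), u (if b then β j else α j) = j := by
    intro j b
    cases b
    · exact h3 j
    · exact h4 j
  have hinj : Function.Injective fun p : Fin 3 × Bool => if p.2 then β p.1 else α p.1 := by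
    rintro ⟨i, b⟩ ⟨j, c⟩ h
    have h6 : i = j := by
      rw [← h5 i b, ← h5 j c]; exact congrArg u h
    subst h6
    have h7 : (if b then β i else α i) = (if c then β i else α i) := h
    cases b <;> cases c
    · rfl
    · exact absurd h7 (h2 i)
    · exact absurd h7.symm (h2 i)
    · rfl
  have hbij : Function.Bijective fun p : Fin 3 × Bool => if p.2 then β p.1 else α p.1 := by
    rw [Fintype.bijective_iff_injective_and_card]
    exact ⟨hinj, by simp⟩
  obtain ⟨c, hc⟩ := pick (fun j b => w (if b then β j else α j)) (by
    intro k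
    rw [← hw k]
    refine card_bij (fun p _ => if p.2 then β p.1 else α p.1) ?_ ?_ ?_
    · intro p hp
      rw [mem_filter] at hp ⊢
      exact ⟨mem_univ _, hp.2⟩
    · intro p _ q _ h
      exact hinj h
    · intro x hx
      obtain ⟨p, hp⟩ := hbij.2 x
      refine ⟨p, ?_, hp⟩
      rw [mem_filter] at hx ⊢
      refine ⟨mem_univ _, ?_⟩
      have h8 : (if p.2 then β p.1 else α p.1) = x := hp
      rw [h8]
      exact hx.2)
  exact ⟨fun j => if c j then β j else α j, fun i => h5 i (c i), fun i j h => hc i j h⟩

variable {V E : Type} [Fintype V] [DecidableEq V] [Fintype E] [DecidableEq E] {src dst : E → V}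

/-- the degree of `v` in the set of edges `F`, where a loop counts twice -/
def dg (src dst : E → V) (F : Finset E) (v : V) : ℕ :=
  ∑ e ∈ F, ((if src e = v then 1 else 0) + (if dst e = v then 1 else 0))

/-- the complements of six even subgraphs in a cubic graph -/
theorem compl6 {C : Fin 6 → Finset E} (h1 : ∀ i v, Even (dg src dst (C i) v))
    (h2 : ∀ e, (univ.filter fun i => e ∈ C i).card = 4) (h3 : ∀ v, dg src dst univ v = 3) :
    (∀ i v, dg src dst (univ \ C i) v = 1) ∧
      ∀ e, (univ.filter fun i => e ∈ univ \ C i).card = 2 := by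
  have hM : ∀ e, (univ.filter fun i => e ∈ univ \ C i).card = 2 := by
    intro e
    have h4 := h2 e
    have h5 : (univ.filter fun i => e ∈ univ \ C i).card + (univ.filter fun i => e ∈ C i).card =
        6 := by
      rw [← card_union_of_disjoint]
      · have : (univ.filter fun i => e ∈ univ \ C i) ∪ (univ.filter fun i => e ∈ C i) = univ := by
          ext i
          simp only [mem_union, mem_filter, mem_univ, true_and, mem_sdiff]
          tauto
        rw [this, card_univ, Fintype.card_fin]
      · rw [disjoint_left]
        intro i h6 h7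
        rw [mem_filter, mem_sdiff] at h6
        rw [mem_filter] at h7
        exact h6.2.2 h7.2
    omega
  refine ⟨fun i v => ?_, hM⟩
  -- the complement of each even subgraph has odd degrees
  have h4 : ∀ j, 1 ≤ dg src dst (univ \ C j) v := by
    intro j
    have h5 : dg src dst (univ \ C j) v + dg src dst (C j) v = 3 := by
      rw [← h3 v]
      unfold dg
      exact sum_sdiff (subset_univ _)
    obtain ⟨k, hk⟩ : Even (dg src dst (C j) v) := h1 j v
    omega
  -- the sum of the six degrees is six
  have h5 : ∑ j, dg src dst (univ \ C j) v = 6 := by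
    have h6 : ∀ j, dg src dst (univ \ C j) v = ∑ e, if e ∈ univ \ C j then
        ((if src e = v then 1 else 0) + (if dst e = v then 1 else 0)) else 0 := by
      intro j
      unfold dg
      rw [sum_ite_mem, univ_inter]
    rw [sum_congr rfl fun j _ => h6 j, sum_comm]
    have h7 : ∀ e, (∑ j, if e ∈ univ \ C j then
        ((if src e = v then 1 else 0) + (if dst e = v then 1 else 0)) else 0) =
        2 * ((if src e = v then 1 else 0) + (if dst e = v then 1 else 0)) := by
      intro e
      rw [← sum_filter, sum_const, hM e, smul_eq_mul]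
    rw [sum_congr rfl fun e _ => h7 e, ← mul_sum]
    have h8 : dg src dst univ v = 3 := h3 v
    unfold dg at h8
    rw [h8]
    norm_num
  have h6 : dg src dst (univ \ C i) v + ∑ j ∈ univ.erase i, dg src dst (univ \ C j) v =
      ∑ j, dg src dst (univ \ C j) v :=
    add_sum_erase univ (fun j => dg src dst (univ \ C j) v) (mem_univ i)
  have h7 : 5 ≤ ∑ j ∈ univ.erase i, dg src dst (univ \ C j) v := by
    have h8 := card_nsmul_le_sum (univ.erase i) (fun j => dg src dst (univ \ C j) v) 1
      (fun j _ => h4 j)
    rw [card_erase_of_mem (mem_univ _), card_univ, Fintype.card_fin] at h8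
    simpa using h8
  have h8 := h4 i
  change dg src dst (univ \ C i) v = 1
  omega

theorem dg_card (hl : ∀ e, src e ≠ dst e) (F : Finset E) (v : V) :
    dg src dst F v = (F.filter fun e => e ∈ star src dst v).card := by
  unfold dg
  rw [card_filter]
  refine sum_congr rfl fun e _ => ?_
  have h := hl e
  simp only [star, mem_filter, mem_univ, true_and]
  by_cases h1 : src e = v <;> by_cases h2 : dst e = v
  · exact absurd (h1.trans h2.symm) h
  · simp [h1, h2]
  · simp [h1, h2]
  · simp [h1, h2]

theorem deg3 (hl : ∀ e, src e ≠ dst e) (hc : ∀ v, (star src dst v).card = 3) (v : V) :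
    dg src dst univ v = 3 := by
  rw [dg_card hl, ← hc v]
  congr 1
  ext e
  simp

/-- the edges at a vertex and the edge which each matching uses there -/
theorem at_vertex (hl : ∀ e, src e ≠ dst e) (hc : ∀ v, (star src dst v).card = 3)
    {C : Fin 6 → Finset E} (h1 : ∀ i v, Even (dg src dst (C i) v))
    (h2 : ∀ e, (univ.filter fun i => e ∈ C i).card = 4) (v : V) :
    ∃ (a : Fin 3 → E) (u : Fin 6 → Fin 3), Function.Injective a ∧
      star src dst v = univ.image a ∧ (∀ k j, a j ∈ C k ↔ u k ≠ j) ∧
      ∀ j, (univ.filter fun k => u k = j).card = 2 := by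
  obtain ⟨h4, h5⟩ := compl6 h1 h2 (deg3 hl hc)
  obtain ⟨x, y, z, hxy, hxz, hyz, hs⟩ := card_eq_three.mp (hc v)
  have ha : Function.Injective ![x, y, z] := by
    intro i j
    fin_cases i <;> fin_cases j <;> simp [hxy, hxz, hyz, hxy.symm, hxz.symm, hyz.symm]
  have hst : star src dst v = univ.image ![x, y, z] := by
    rw [hs]
    ext e
    simp only [mem_insert, mem_singleton, mem_image, mem_univ, true_and, Fin.exists_fin_succ,
      Matrix.cons_val_zero, Matrix.cons_val_succ, IsEmpty.exists_iff, or_false]
    constructor
    · rintro (rfl | rfl | rfl)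
      · exact Or.inl rfl
      · exact Or.inr (Or.inl rfl)
      · exact Or.inr (Or.inr rfl)
    · rintro (rfl | rfl | rfl)
      · exact Or.inl rfl
      · exact Or.inr (Or.inl rfl)
      · exact Or.inr (Or.inr rfl)
  have h6 : ∀ k, ∃ j : Fin 3, ∀ j', ![x, y, z] j' ∈ C k ↔ j ≠ j' := by
    intro k
    have h7 := h4 k v
    rw [dg_card hl] at h7
    obtain ⟨e, he⟩ := card_eq_one.mp h7
    have h8 : e ∈ (univ \ C k).filter fun e => e ∈ star src dst v := by rw [he]; simp
    rw [mem_filter, mem_sdiff] at h8
    have h9 : e ∈ univ.image ![x, y, z] := by rw [← hst]; exact h8.2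
    obtain ⟨j, _, hj⟩ := mem_image.mp h9
    refine ⟨j, fun j' => ⟨fun h10 h11 => ?_, fun h10 => ?_⟩⟩
    · rw [← h11, hj] at h10
      exact h8.1.2 h10
    · by_contra h11
      have h12 : ![x, y, z] j' ∈ (univ \ C k).filter fun e => e ∈ star src dst v := by
        rw [mem_filter, mem_sdiff]
        refine ⟨⟨mem_univ _, h11⟩, ?_⟩
        rw [hst]
        exact mem_image_of_mem _ (mem_univ _)
      rw [he, mem_singleton, ← hj] at h12
      exact h10 (ha h12).symm
  choose u hu using h6
  refine ⟨![x, y, z], u, ha, hst, hu, fun j => ?_⟩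
  rw [← h5 (![x, y, z] j)]
  congr 1
  ext k
  simp only [mem_filter, mem_univ, true_and, mem_sdiff]
  rw [hu k j, not_not]

/-- the matchings with different edges at a vertex leave every edge there in exactly two -/
theorem two_of {w : Fin 3 → Fin 3} (hw : Function.Injective w) (j : Fin 3) :
    (univ.filter fun i => w i ≠ j).card = 2 := by
  have hb : Function.Bijective w := Finite.injective_iff_bijective.mp hw
  have h1 : (univ.filter fun i => w i = j).card = 1 := by
    obtain ⟨i, hi⟩ := hb.2 j
    rw [card_eq_one]
    refine ⟨i, ?_⟩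
    ext k
    simp only [mem_filter, mem_univ, true_and, mem_singleton]
    exact ⟨fun h => hw (h.trans hi.symm), fun h => h ▸ hi⟩
  have h2 := card_filter_add_card_filter_not (s := (univ : Finset (Fin 3))) (fun i => w i = j)
  rw [h1, card_univ, Fintype.card_fin] at h2
  have h3 : (univ.filter fun i => w i ≠ j) = univ.filter fun i => ¬ w i = j := rfl
  rw [h3]
  omega


end Pool.Agent.Y425.BF6.Tf
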